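import Pool.Agent.Lib.MP_5591bc_ag.E.Branch
import Pool.Agent.Lib.MP_5591bc_ag.M.SerO
import Pool.Agent.Lib.MP_5591bc_ag.M.FrA

/-! Continuations of a fundamental matrix are fundamental matrices at ordinary points. -/

namespace Pool.Agent.Lib.MP_5591bc_ag.Z

open Matrix Filter Topology MvPowerSeries G R W M E Metric

noncomputable section

variable {σ K ν : Type*} [Fintype σ] [DecidableEq σ] [Field K] [Algebra K ℂ] [Fintype ν]
  [DecidableEq ν] {T : MvPolynomial σ K} {B : σ → Matrix ν ν (MvPolynomial σ K)}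
  {U V : Set (σ → ℂ)} {P G : (σ → ℂ) → Matrix ν ν ℂ}

theorem fund_det {p : σ → ℂ} (h : ∀ i j, AnalyticAt ℂ (P · i j) p) :
    AnalyticAt ℂ (fun t => (P t).det) p ∧ tayM (fun t => (P t).det) p = (tayX P p).det := by
  have e : (of fun i j => (⟨_, h i j⟩ : anaO p)).det.1 = fun t => (P t).det :=
    funext fun t => ((Pi.evalRingHom (fun _ => ℂ) t).comp (anaO p).subtype).map_det _
  rw [← e]
  exact ⟨(of fun i j => (⟨_, h i j⟩ : anaO p)).det.2, (anaT p).map_det _⟩

theorem fund_inv (ho : IsOpen U) (hc : IsPreconnected U) (hP : FundM T B U P) {U1 P1}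
    (h : ContM U P U1 P1) : (∀ t ∈ U1, ∀ i j l, MvPolynomial.aeval t T *
      fderiv ℂ (fun z => P1 z i j) t (Pi.single l 1) =
        ∑ a, MvPolynomial.aeval t (B l i a) * P1 t a j) ∧
      ∀ t ∈ U1, ¬ ∀ᶠ z in 𝓝 t, (P1 z).det = 0 := by
  induction h with
  | base => exact ⟨fun t ht i j l => ((hP t ht).2 i j).2 l,
      fun t ht e => (hP t ht).1 e.self_of_nhds⟩
  | step U1 U2 P1 P2 s h1 o2 c2 d2 s1 s2 e ih =>
    have o1 := (cont_dom ho hc (fun i j t ht => ((hP t ht).2 i j).1) h1).1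
    refine ⟨fun t ht i j l => sub_eq_zero.1 ?_, fun t ht e0 => ih.2 s s1 ?_⟩
    · refine AnalyticOnNhd.eqOn_zero_of_preconnected_of_eventuallyEq_zero (𝕜 := ℂ)
        (f := fun t => MvPolynomial.aeval t T * fderiv ℂ (fun z => P2 z i j) t (Pi.single l 1) -
          ∑ a, MvPolynomial.aeval t (B l i a) * P2 t a j) (fun z hz =>
        ((aeval_ana T).fun_mul (pd_ana (d2 i j z hz) l)).fun_sub (Finset.analyticAt_fun_sum _
          fun a _ => (aeval_ana _).fun_mul (d2 a j z hz))) c2 s2 ?_ ht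
      have e1 : (fun z => P1 z i j) =ᶠ[𝓝 s] fun z => P2 z i j := e.mono fun z hz => by
        simp only [hz]
      filter_upwards [e, e1.fderiv (𝕜 := ℂ), o1.mem_nhds s1] with z z1 z2 z3
      rw [← z1, ← z2, ih.1 z z3, sub_self]; rfl
    · have := AnalyticOnNhd.eqOn_zero_of_preconnected_of_eventuallyEq_zero (𝕜 := ℂ)
        (f := fun t => (P2 t).det) (fun z hz => (fund_det fun i j => d2 i j z hz).1) c2 ht e0
      filter_upwards [e, o2.mem_nhds s2] with z z1 z2
      rw [z1]; exact this z2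

theorem cont_fund (T0 : T ≠ 0) (ho : IsOpen U) (hc : IsPreconnected U) (hP : FundM T B U P) {U1 P1}
    (h : ContM U P U1 P1) {t} (ht : t ∈ U1) (hT : MvPolynomial.aeval t T ≠ 0) :
    ∃ V, IsOpen V ∧ IsPreconnected V ∧ t ∈ V ∧ V ⊆ U1 ∧ FundM T B V P1 := by
  obtain ⟨o1, -, d1⟩ := cont_dom ho hc (fun i j t ht => ((hP t ht).2 i j).1) h
  obtain ⟨i1, i2⟩ := fund_inv ho hc hP h
  have ha := fun i j => d1 i j t ht
  have hd : (P1 t).det ≠ 0 := fun e => i2 t ht <| by
    have ode : ∀ l, tayM (fun z => MvPolynomial.aeval z T) t • (tayX P1 t).map (pderiv ℂ l) =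
        (B l).map (fun q => tayM (fun z => MvPolynomial.aeval z q) t) * tayX P1 t := fun l => by
      ext1 i j
      simp only [Matrix.smul_apply, map_apply, tayX, of_apply, smul_eq_mul, mul_apply]
      have hb : AnalyticAt ℂ (fun z => fderiv ℂ (fun z => P1 z i j) z (Pi.single l 1)) t :=
        pd_ana (ha i j) l
      rw [← tayM_pd (ha i j), ← tayM_mul (aeval_ana T) hb,
        ← Finset.sum_congr rfl fun a _ => tayM_mul (aeval_ana (B l i a)) (ha a j),
        ← tayM_sum _ fun a _ => (aeval_ana _).fun_mul (ha a j)]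
      exact tayM_congr (mem_of_superset (o1.mem_nhds ht) fun z hz => i1 z hz i j l)
    refine eventually_zero_of_tayM (fund_det ha).1 ?_
    have e0 : constantCoeff (tayX P1 t).det = 0 := by
      rw [← (fund_det ha).2, constantCoeff_tayM (fund_det ha).1, e]
    rw [(fund_det ha).2]
    refine zero_famM (t := tayM (fun z => MvPolynomial.aeval z T) t)
      (F := Set.range fun a => a * (tayX P1 t).det) ?_ ?_ ?_ _ ⟨1, one_mul _⟩
    · rw [isUnit_iff_constantCoeff, constantCoeff_tayM (aeval_ana T)]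
      exact hT.isUnit
    · rintro _ ⟨a, rfl⟩
      rw [isUnit_iff_constantCoeff, map_mul, e0, mul_zero]
      exact not_isUnit_zero
    · rintro _ ⟨a, rfl⟩ l
      have k := der_det (ode l)
      refine ⟨tayM (fun z => MvPolynomial.aeval z T) t * pderiv ℂ l a + a * ((B l).map
        fun q => tayM (fun z => MvPolynomial.aeval z q) t).trace, ?_⟩
      simp only [Derivation.leibniz, smul_eq_mul]
      linear_combination (-a) * k
  obtain ⟨r, r0, hr⟩ := Metric.eventually_nhds_iff_ball.1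
    (((fund_det ha).1.continuousAt.eventually_ne hd).and (o1.mem_nhds ht))
  exact ⟨ball t r, isOpen_ball, (convex_ball t r).isPreconnected, mem_ball_self r0,
    fun z hz => (hr z hz).2, fun z hz => ⟨(hr z hz).1, fun i j =>
      ⟨d1 i j z (hr z hz).2, i1 z (hr z hz).2 i j⟩⟩⟩

end

end Pool.Agent.Lib.MP_5591bc_ag.Z
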