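import Pool.Agent.Lib.MP_5591bc_ag.Z.Defs
import Pool.Agent.Lib.MP_5591bc_ag.E.Branch
import Pool.Agent.Lib.MP_5591bc_ag.N.Good

/-! Classes of branches and change of branch. -/

namespace Pool.Agent.Lib.MP_5591bc_ag.Z

open Matrix Filter Topology G R W M N E

noncomputable section

/-- few representatives -/
theorem cls_rep {α : Type*} {r : α → α → Prop} (h1 : ∀ a, r a a) (h2 : ∀ a b, r a b → r b a)
    {S : Finset α} {m : ℕ}
    (h : ∀ f : Fin (m + 1) → α, (∀ i, f i ∈ S) → ∃ i j, i ≠ j ∧ r (f i) (f j)) :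
    ∃ I ⊆ S, I.card ≤ m ∧ ∀ a ∈ S, ∃ c ∈ I, r c a := by
  classical
  obtain ⟨I, hI, hm⟩ := Finset.exists_max_image
    (S.powerset.filter fun I : Finset α => (I : Set α).Pairwise fun a b => ¬ r a b) Finset.card ⟨∅, by simp⟩
  obtain ⟨i1, i2⟩ := Finset.mem_filter.1 hI
  rw [Finset.mem_powerset] at i1
  refine ⟨I, i1, ?_, fun a ha => ?_⟩
  · by_contra hc
    obtain ⟨f⟩ := Function.Embedding.nonempty_of_card_le (α := Fin (m + 1)) (β := I)
      (by simpa using hc)
    obtain ⟨i, j, e, hr⟩ := h (fun i => f i) fun i => i1 (f i).2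
    exact i2 (f i).2 (f j).2 (fun e' => e (f.injective (Subtype.ext e'))) hr
  · by_contra hc
    push Not at hc
    have a0 : a ∉ I := fun e => hc a e (h1 a)
    have := hm (insert a I) (Finset.mem_filter.2 ⟨Finset.mem_powerset.2
      (Finset.insert_subset ha i1), by
        rw [Finset.coe_insert]
        exact i2.insert fun b hb _ => ⟨fun e => hc b hb (h2 _ _ e), hc b hb⟩⟩)
    rw [Finset.card_insert_of_notMem a0] at this
    omega

variable {σ K ν : Type*} [Fintype σ] [DecidableEq σ] [Field K] [Algebra K ℂ] [Fintype ν]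
  [DecidableEq ν] {U U' : Set (σ → ℂ)} {P P' : (σ → ℂ) → Matrix ν ν ℂ}
  {C1 C0 C1' C0' : Matrix ν ν ℂ}

omit [DecidableEq σ] [DecidableEq ν] in
theorem cls_cont (ho : IsOpen U) (H : MvPolynomial (σ ⊕ (ν × ν) ⊕ (ν × ν)) K)
    (h : ∀ t ∈ U, MvPolynomial.aeval (Sum.elim t
      (Sum.elim (fun a => (P t * C1) a.1 a.2) fun a => (P t * C0) a.1 a.2)) H = 0)
    (hU : ContM U P U' P') : IsOpen U' ∧ ∀ t ∈ U', MvPolynomial.aeval (Sum.elim t
      (Sum.elim (fun a => (P' t * C1) a.1 a.2) fun a => (P' t * C0) a.1 a.2)) H = 0 := by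
  induction hU with
  | base => exact ⟨ho, h⟩
  | step U1 U2 P1 P2 s' _ o2 c2 d2 s1 s2 e ih =>
    refine ⟨o2, good_vanN c2 (fun t ht i j => d2 i j t ht) H s2 ?_⟩
    filter_upwards [e, ih.1.mem_nhds s1] with t h3 h4
    rw [← h3]
    exact ih.2 t h4

omit [DecidableEq σ] in
theorem good_mulR (ho : IsOpen U) (ho' : IsOpen U') (hc' : IsPreconnected U')
    (hP' : ∀ t ∈ U', ∀ i j, AnalyticAt ℂ (P' · i j) t) {δ : ℕ} {x : σ → K} {z : Matrix ν ν K}
    (hx : pc x ∈ U) (hx' : pc x ∈ U') {γ : Matrix ν ν K} (hγ : γ.det ≠ 0)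
    (e : ∀ᶠ t in 𝓝 (pc x), P' t * C1' = P t * C1 ∧
      P' t * C0' = P t * C0 * γ.map (algebraMap K ℂ)) (h : GoodRM U P C1 C0 δ x z) :
    GoodRM U' P' C1' C0' δ x z := by
  obtain ⟨γ', g1⟩ : ∃ γ', γ' * γ = 1 := ⟨_, nonsing_inv_mul _ hγ.isUnit⟩
  intro F hF hF0
  obtain ⟨H, h1, h2⟩ := h (MvPolynomial.aeval (fun a : ν × ν => ∑ k, (MvPolynomial.X (a.1, k) *
      MvPolynomial.C (γ k a.2) : MvPolynomial (ν × ν) K)) F)
    ((branch_deg (fun a => MvPolynomial.totalDegree_finsetSum_le fun k _ =>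
      (MvPolynomial.totalDegree_mul _ _).trans (by simp)) F).trans hF) (by
      rw [← AlgHom.comp_apply, MvPolynomial.comp_aeval, ← hF0]
      have := e.self_of_nhds.2
      unfold pc at this
      rw [this]
      generalize P _ * C0 = Y
      simp [mul_apply])
  obtain ⟨H', hH⟩ : ∃ H' : MvPolynomial (σ ⊕ (ν × ν) ⊕ (ν × ν)) K, H' = MvPolynomial.aeval
    (Sum.elim (fun l => MvPolynomial.X (.inl l)) (Sum.elim (fun a => MvPolynomial.X (.inr (.inl a)))
      fun a : ν × ν => ∑ k, MvPolynomial.X (.inr (.inr (a.1, k))) * MvPolynomial.C (γ' k a.2))) H :=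
    ⟨_, rfl⟩
  refine ⟨H', fun U2 P2 h3 => (cls_cont ho' H' (good_vanN hc' hP' H' hx' ?_) h3).2, ?_⟩
  · filter_upwards [e, ho.mem_nhds hx] with t a1 a2
    have a3 : P t * C0 = P' t * C0' * γ'.map (algebraMap K ℂ) := by
      rw [a1.2, Matrix.mul_assoc, ← Matrix.map_mul, mul_eq_one_comm.1 g1,
        Matrix.map_one _ (map_zero _) (map_one _), Matrix.mul_one]
    rw [hH, ← AlgHom.comp_apply, MvPolynomial.comp_aeval, ← h1 U P .base t a2, a3, a1.1]
    generalize P' t * C0' = Y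
    congr 2
    ext (l | a | a) <;> simp [mul_apply]
  · have a1 := congrArg (MvPolynomial.aeval fun a : ν × ν => ∑ k, (MvPolynomial.X (a.1, k) *
      MvPolynomial.C (γ' k a.2) : MvPolynomial (ν × ν) K)) h2
    rw [← AlgHom.comp_apply, MvPolynomial.comp_aeval, ← AlgHom.comp_apply,
      MvPolynomial.comp_aeval] at a1
    rw [hH, ← AlgHom.comp_apply, MvPolynomial.comp_aeval]
    convert a1 using 1
    · congr 2
      funext o
      rcases o with l | a | a <;> simp
    · conv_lhs => rw [← MvPolynomial.aeval_X_left_apply F]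
      congr 2
      funext a
      simp only [map_sum, map_mul, MvPolynomial.aeval_X, MvPolynomial.aeval_C,
        MvPolynomial.algebraMap_eq, Finset.sum_mul, mul_assoc]
      rw [Finset.sum_comm]
      simp only [← MvPolynomial.C_mul, ← Finset.mul_sum, ← map_sum, ← mul_apply, g1, one_apply]
      simp [apply_ite]

end

end Pool.Agent.Lib.MP_5591bc_ag.Z
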