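import Pool.Agent.Lib.MP_5591bc_ag.Z.Gap
import Pool.Agent.Lib.MP_5591bc_ag.Z.Cls
import Pool.Agent.Lib.MP_5591bc_ag.E.Main

/-! All exceptional points, on all branches, lie on a hypersurface of small degree. -/

namespace Pool.Agent.Lib.MP_5591bc_ag.Z

open Matrix Filter Topology G R W M N E Metric MvPolynomial

noncomputable section

variable {σ K : Type} [Fintype σ] [DecidableEq σ] [Field K] [NumberField K]
  [Algebra K ℂ] {n : ℕ} {T : MvPolynomial σ K}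
  {B : σ → Matrix (Fin n) (Fin n) (MvPolynomial σ K)}

omit [Fintype σ] [DecidableEq σ] in
theorem main_conn {U : Set (σ → ℂ)} {P Q : (σ → ℂ) → Matrix (Fin n) (Fin n) ℂ}
    {g : Matrix (Fin n) (Fin n) ℂ} (hg : g.det ≠ 0) (h : ConnRM U (fun t => P t * g) Q) :
    ConnRM U P Q := by
  have e : ∀ u, ∃ u', valM (fun t => P t * g) u' = valM P u := fun u => by
    refine ⟨aeval (fun a : Fin n × Fin n => ∑ k, (X (a.1, k) * C (C (g⁻¹ k a.2)) :
      MvPolynomial (Fin n × Fin n) (MvPolynomial σ ℂ))) u, funext fun t => ?_⟩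
    have : ∀ a : Fin n × Fin n, ∑ k, (P t * g) a.1 k * g⁻¹ k a.2 = P t a.1 a.2 := fun a => by
      rw [← mul_apply, mul_nonsing_inv_cancel_right _ _ hg.isUnit]
    unfold valM
    induction u using MvPolynomial.induction_on with
    | C a => simp
    | add p q hp hq => rw [map_add, eval₂_add, eval₂_add, hp, hq]
    | mul_X p a hp =>
      rw [map_mul, eval₂_mul, eval₂_mul, hp, aeval_X, eval₂_X, ← this a]
      simp [eval₂_sum]
  intro u v
  obtain ⟨u', hu⟩ := e u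
  obtain ⟨v', hv⟩ := e v
  rw [← hu, ← hv]
  exact h u' v'

theorem hyp_natZ [Nonempty σ] (T0 : T ≠ 0) (h : GalM T B) : ∃ C : ℕ, 0 < C ∧
    ∀ (δ r : ℕ) (U : Set (σ → ℂ)) (P : (σ → ℂ) → Matrix (Fin n) (Fin n) ℂ)
      (C1 C0 : Matrix (Fin n) (Fin n) ℂ), IsOpen U → IsPreconnected U → FundM T B U P →
      ConnRM U P (fun t => P t * C1) → FinMon K U P C1 C0 r → 0 < r → ∀ d L : ℕ, 0 < d → 0 < L →
      ∀ S : Finset (σ → ℂ), (∀ t ∈ S, (∀ j, ∃ q : Polynomial ℤ, q ≠ 0 ∧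
          (∀ i, |(q.coeff i : ℝ)| ≤ 2 ^ L) ∧ Polynomial.aeval (t j) q = 0) ∧
        ∃ U' P', ContM U P U' P' ∧ FundM T B U' P' ∧ t ∈ U' ∧
          ∃ (E : IntermediateField K ℂ) (x : σ → E) (z : Matrix (Fin n) (Fin n) E), pc x = t ∧
          FiniteDimensional ℚ E ∧ Module.finrank ℚ E ≤ d ∧ z.map (algebraMap E ℂ) = P' t * C1 ∧
          ¬ GoodRM U' P' C1 C0 δ x z) →
        Hyp (S : Set (σ → ℂ)) (r * (C * (δ + 1) * (d * L)) ^ (C * (δ + 1) ^ n ^ 2)) := by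
  classical
  obtain ⟨c₀, e, hg⟩ := gapZ h
  obtain ⟨T', T1, c₂, hc⟩ := cells σ T0
  obtain ⟨c₁, hL⟩ := liouM T'
  obtain ⟨c₃, hr⟩ := main_room T
  obtain ⟨k, hk⟩ : ∃ k, k = Fintype.card σ := ⟨_, rfl⟩
  obtain ⟨a, ha⟩ : ∃ a, a = (c₃ + 25) * ((c₂ + 1) * (c₁ + 1)) := ⟨_, rfl⟩
  obtain ⟨b, hb⟩ : ∃ b, b = a + 2 * (k + 1) := ⟨_, rfl⟩
  obtain ⟨C, Cp, he⟩ := mu_num (T * T').totalDegree c₀ b (e + 1 + c₂) (n ^ 2)
  refine ⟨C, Cp, fun δ r U P C1 C0 ho hU hP hC hM r0 d L d0 L0 S hS => ?_⟩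
  refine Hyp.mono ?_ subset_rfl (Nat.mul_le_mul_left r (he δ (d * L) (Nat.mul_pos d0 L0)))
  obtain ⟨N, hN⟩ : ∃ N, N = (δ + 1) ^ n ^ 2 := ⟨_, rfl⟩
  replace hg := hg δ N (by simp [hN, sq])
  rw [← hN]
  generalize c₀ * δ = c at hg ⊢
  obtain ⟨m, hm⟩ : ∃ m, m = (L + 1) * d := ⟨_, rfl⟩
  have m0 : 0 < m := hm ▸ by positivity
  have x0 : 0 < d * L := Nat.mul_pos d0 L0
  have x1 : d ≤ d * L := Nat.le_mul_of_pos_right _ L0
  have x3 : d * L ≤ (d * L) ^ 2 := Nat.le_self_pow two_ne_zero _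
  have x4 : d * d ≤ (d * L) ^ 2 := by rw [sq]; exact Nat.mul_le_mul x1 x1
  have x5 : m ≤ 2 * (d * L) := by rw [hm, add_mul, mul_comm L, one_mul]; omega
  have x6 := Nat.mul_le_mul_left c (x5.trans (Nat.mul_le_mul_left 2 x3))
  have x8 := Nat.mul_le_mul_left a (x5.trans (Nat.mul_le_mul_left 2 x3))
  have x9 := Nat.mul_le_mul_left (k + 1) (show 2 * m + 1 ≤ 6 * (d * L) ^ 2 by omega)
  obtain ⟨Λ, hΛ⟩ : ∃ Λ, Λ = (2 * c + 3 * b + 8) * (d * L) ^ 2 := ⟨_, rfl⟩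
  have eΛ : Λ = c * (2 * (d * L) ^ 2) + a * (2 * (d * L) ^ 2) +
      (k + 1) * (6 * (d * L) ^ 2) + (a + 8) * (d * L) ^ 2 := by rw [hΛ, hb]; ring
  obtain ⟨p, hp⟩ : ∃ p, p = (c₁ + 1) * m := ⟨_, rfl⟩
  have p0 : 0 < p := hp ▸ by positivity
  have y0 : a * m = c₃ * (c₂ * p + p) + 25 * (c₂ * p) + 25 * p := by rw [ha, hp]; ring
  have y2 : d * d ≤ Λ := by rw [add_mul _ 8] at eΛ; omega
  have an : ∀ {V Q}, FundM T B V Q → ∀ i j, AnalyticOnNhd ℂ (fun t => Q t i j) V :=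
    fun h i j t ht => ((h t ht).2 i j).1
  have an' : ∀ {V Q}, FundM T B V Q → ∀ t ∈ V, ∀ i j, AnalyticAt ℂ (Q · i j) t :=
    fun h t ht i j => ((h t ht).2 i j).1
  choose! hq V Q hV hQ mV hbad using hS
  have dom := fun t ht => cont_dom ho hU (an hP) (hV t ht)
  have ht : ∀ (E : IntermediateField K ℂ) [NumberField E] (x : σ → E), pc x ∈ S →
      Module.finrank ℚ E ≤ d → ∀ j, Hd (x j) (2 ^ m) := fun E _ x hx hd j => by
    obtain ⟨q, q0, q1, q2⟩ := hq _ hx j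
    have qy : Polynomial.aeval (x j) q = 0 := (algebraMap E ℂ).injective (by
      rw [map_zero, ← q2]
      exact (Polynomial.aeval_algHom_apply (algebraMap E ℂ).toIntAlgHom _ q).symm)
    refine ⟨2 * 2 ^ L, ?_, Ht_of_poly q0 q1 qy, ?_⟩
    · linarith [one_le_pow₀ (one_le_two (α := ℝ)) (n := L)]
    · rw [← pow_succ', ← pow_mul, hm]
      exact pow_le_pow_right₀ one_le_two (Nat.mul_le_mul_left _ hd)
  have ar : ∀ t ∈ S, ∃ (E : IntermediateField K ℂ) (_ : NumberField E) (y : σ → E), pc y = t ∧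
      Module.finrank ℚ E ≤ d ∧ ∀ l, Hd (y l) (2 ^ m) := fun t h => by
    obtain ⟨E, x, -, rfl, hE, hd, -⟩ := hbad t h
    have : NumberField E := {}
    exact ⟨E, this, x, rfl, hd, ht E x h hd⟩
  obtain ⟨𝒞, t1, t2, t3⟩ := hc p 18 p0 (by norm_num)
  have h1 : Hyp {z : σ → ℂ | aeval z (T * T') = 0} (T * T').totalDegree :=
    ⟨TM ℂ (T * T'), (map_ne_zero_iff _ (map_injective _ (algebraMap K ℂ).injective)).2
      (mul_ne_zero T0 T1), Finset.sup_mono (support_map_subset _ _),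
      fun z hz => by rwa [eval_map, ← aeval_def]⟩
  have h2 := Hyp.cover (A := (S.filter fun z => aeval z (T * T') ≠ 0 : Finset (σ → ℂ)))
    (n := 1 + r * (Λ + N + 2) ^ (e * (N + 1)))
    (Cs := 𝒞.image fun D => (S.filter fun z => aeval z (T * T') ≠ 0).filter fun z => z ∈ D)
    (fun S' hS' => ?_) fun z hz => ?_
  · rw [mul_add r]
    refine (h1.union h2).mono (fun z hz => ?_) (add_le_add (Nat.le_mul_of_pos_left _ r0) ?_)
    · by_cases e : aeval z (T * T') = 0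
      exacts [Or.inl e, Or.inr (Finset.mem_coe.2 (Finset.mem_filter.2 ⟨hz, e⟩))]
    rw [← hΛ]
    refine ((Nat.mul_le_mul_left _ (show _ ≤ r * (1 + (Λ + N + 2) ^ (e * (N + 1))) by
      rw [mul_add r]; omega)).trans (mul_left_comm _ _ _).le).trans (Nat.mul_le_mul_left _ ?_)
    refine le_trans ?_ ((Nat.le_mul_of_pos_right _ (by positivity)).trans
      (Nat.le_mul_of_pos_left _ (Nat.mul_pos (by omega) (by omega))))
    rw [add_mul _ c₂, pow_add, mul_comm]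
    refine Nat.mul_le_mul ?_ (Finset.card_image_le.trans (t1.trans
      ((Nat.pow_le_pow_left (by omega) _).trans
        (Nat.pow_le_pow_right (by omega) (Nat.le_mul_of_pos_right _ N.succ_pos)))))
    rw [add_mul, pow_add, one_mul]
    have w1 : 0 < (Λ + N + 2) ^ (e * (N + 1)) := by positivity
    have w2 : 2 ≤ (Λ + N + 2) ^ (N + 1) := le_trans (by omega) (Nat.le_self_pow N.succ_ne_zero _)
    exact le_trans (by omega) (Nat.mul_le_mul_left _ w2)
  · obtain ⟨D, hD, rfl⟩ := Finset.mem_image.1 hS'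
    rcases Finset.eq_empty_or_nonempty
      ((S.filter fun z => aeval z (T * T') ≠ 0).filter fun z => z ∈ D) with e0 | ⟨s, hs⟩
    · rw [e0, Finset.coe_empty]
      exact hyp_empty.mono subset_rfl (Nat.zero_le _)
    obtain ⟨s1, s2⟩ := Finset.mem_filter.1 hs
    obtain ⟨s3, s4⟩ := Finset.mem_filter.1 s1
    replace s4 := left_ne_zero_of_mul ((map_mul _ _ _).symm.trans_ne s4)
    obtain ⟨l⟩ := ‹Nonempty σ›
    have h3 : Hyp ({s} : Set (σ → ℂ)) 1 := ⟨X l - MvPolynomial.C (s l),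
      fun e => by simpa using congrArg (eval fun i => s i + 1) e,
      (totalDegree_sub_C_le _ _).trans (totalDegree_X l).le, fun x hx => by simp [show x = s from hx]⟩
    obtain ⟨S1, hS1⟩ : ∃ S1, S1 =
      ((S.filter fun z => aeval z (T * T') ≠ 0).filter fun z => z ∈ D).erase s := ⟨_, rfl⟩
    have m1 : ∀ x ∈ S1, x ≠ s ∧ x ∈ S ∧ x ∈ D := fun x hx => by
      simp only [hS1, Finset.mem_erase, Finset.mem_filter] at hx
      exact ⟨hx.1, hx.2.1.1, hx.2.2⟩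
    have tb : ∀ x ∈ S1, ∃ U' Q', Tb T B (2 ^ Λ) (2 ^ Λ)⁻¹ s x (Q s) U' Q' := fun x hx => by
      obtain ⟨φ, arc⟩ := t3 D hD s s2 x (m1 x hx).2.2
      exact main_tb (loc_fund (dom s s3).1 ⟨s, mV s s3⟩ (hQ s s3) T0) (dom s s3).1
        (hQ s s3) (mV s s3) (m1 x hx).1.symm arc (by omega) fun u hu =>
        hr (c₂ * p + p) Λ (by omega) (by omega) _ ((arc.le u (by simpa using hu)).trans
          (pow_le_pow_right₀ one_le_two (by omega)))
          ((cell_inv (by omega)).trans (arc.ge u (by simpa using hu)))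
    choose! U' Q' tb using tb
    obtain ⟨g, eg⟩ : ∃ g : (σ → ℂ) → _, g = fun x => (Q' x x)⁻¹ * Q x x := ⟨_, rfl⟩
    have g0 : ∀ x ∈ S1, (g x).det ≠ 0 := fun x hx => by
      rw [eg, det_mul, det_nonsing_inv, Ring.inverse_eq_inv]
      exact mul_ne_zero (inv_ne_zero ((tb x hx).fd x (tb x hx).mx).1)
        (hQ x (m1 x hx).2.1 x (mV x (m1 x hx).2.1)).1
    have g1 : ∀ x ∈ S1, ∀ᶠ z in 𝓝 x, Q x z = Q' x z * g x := fun x hx => eg ▸ fund_uniq
      (dom x (m1 x hx).2.1).1 (tb x hx).op (hQ x (m1 x hx).2.1) (tb x hx).fd (mV x (m1 x hx).2.1)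
      (tb x hx).mx (tb x hx).ne
    have ct : ∀ x ∈ S1, ContM U P (U' x) fun z => Q' x z * g x := fun x hx => .step _ _ _ _ x
      (hV x (m1 x hx).2.1) (tb x hx).op (tb x hx).co (an (fund_mul (tb x hx).fd (g0 x hx)))
      (mV x (m1 x hx).2.1) (tb x hx).mx (g1 x hx)
    obtain ⟨I, i1, i2, i3⟩ := cls_rep (S := S1) (m := r) (r := fun a b => g b * C1 = g a * C1 ∧
      ∃ γ : Matrix (Fin n) (Fin n) K, γ.det ≠ 0 ∧ g b * C0 = g a * C0 * γ.map (algebraMap K ℂ))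
      (fun a => ⟨rfl, 1, by simp, by simp⟩) (fun a b ⟨h1, γ, h2, h3⟩ => ⟨h1.symm, γ⁻¹, by
        rw [det_nonsing_inv, Ring.inverse_eq_inv]
        exact inv_ne_zero h2, by
        rw [h3, Matrix.mul_assoc _ _ (γ⁻¹.map _), ← Matrix.map_mul, mul_nonsing_inv _ h2.isUnit]
        simp⟩) fun f hf => by
      obtain ⟨i, j, e, γ, h2, h3⟩ := hM s (fun i => U' (f i)) (fun i z => Q' (f i) z * g (f i))
        fun i => ⟨ct _ (hf i), (tb _ (hf i)).ms⟩
      obtain ⟨h4, h5⟩ := h3.self_of_nhds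
      have u : IsUnit (Q s s) := (isUnit_iff_isUnit_det _).2 (hQ s s3 s (mV s s3)).1.isUnit
      simp only [(tb _ (hf _)).eq.eq_of_nhds, Matrix.mul_assoc] at h4 h5
      exact ⟨i, j, e, u.mul_left_cancel h4, γ, h2, by
        rw [Matrix.mul_assoc]; exact u.mul_left_cancel h5⟩
    refine (h3.union ((Hyp.cover (A := (S1 : Set (σ → ℂ))) (Cs := I.image fun c => S1.filter fun b =>
      g b * C1 = g c * C1 ∧ ∃ γ : Matrix (Fin n) (Fin n) K, γ.det ≠ 0 ∧
        g b * C0 = g c * C0 * γ.map (algebraMap K ℂ)) (fun S2 h2 => ?_) fun x hx => ?_).mono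
      subset_rfl (Nat.mul_le_mul_right _ (Finset.card_image_le.trans i2)))).mono
      (fun z hz => (em (z = s)).imp id fun e => hS1 ▸ Finset.mem_coe.2 (Finset.mem_erase.2 ⟨e, hz⟩))
      le_rfl
    swap
    · obtain ⟨c, c1, c2⟩ := i3 x hx
      exact ⟨_, Finset.mem_image_of_mem _ c1, Finset.mem_filter.2 ⟨hx, c2⟩⟩
    obtain ⟨c, c1, rfl⟩ := Finset.mem_image.1 h2
    replace c1 := i1 c1
    have k1 := main_conn (g0 c c1) (ConnRM.cont ho hU (an' hP) C1 hC (ct c c1))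
    simp only [Matrix.mul_assoc] at k1
    refine hg m d Λ s (V s) (Q s) (g c * C1) (g c * C0) m0 (by omega) (by rw [← hk]; omega) y2
      (dom s s3).1 (dom s s3).2.1 (hQ s s3) (mV s s3) s4 (ConnRM.cont (tb c c1).op (tb c c1).co
        (an' (tb c c1).fd) _ k1 (.step _ _ _ _ s .base (dom s s3).1 (dom s s3).2.1 (dom s s3).2.2
          (tb c c1).ms (mV s s3) (tb c c1).eq)) (ar s s3) _ fun x hx => ?_
    obtain ⟨a1, a2, γ, a3, a4⟩ := Finset.mem_filter.1 hx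
    have a5 := (m1 x a1).2.1
    have t := tb x a1
    obtain ⟨E, y, z, rfl, f1, f2, f3, f4⟩ := hbad x a5
    have : NumberField E := {}
    have := mt (fun k => good_mulR t.op (dom _ a5).1 (dom _ a5).2.1 (an' (hQ _ a5)) t.mx (mV _ a5)
      (γ := γ.map (algebraMap K E)) (by
        rw [← RingHom.mapMatrix_apply, ← RingHom.map_det]
        exact (_root_.map_ne_zero _).2 a3) ((g1 _ a1).mono fun w hw => by
        rw [hw, Matrix.mul_assoc, Matrix.mul_assoc, a2, a4, Matrix.mul_assoc (Q' _ w)]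
        exact ⟨rfl, rfl⟩) (goodRM_of t.op t.co (an' t.fd) t.mx k)) f4
    push Not at this
    obtain ⟨F, hF, hn⟩ := this
    exact ⟨_, _, t, E, inferInstance, y, F, z, rfl, by
      rw [f3, (g1 _ a1).self_of_nhds, Matrix.mul_assoc, a2], f2, ht E y a5 f2, hF, hn⟩
  · obtain ⟨z1, z2⟩ := Finset.mem_filter.1 hz
    obtain ⟨E, _, x, rfl, hd, hx⟩ := ar z z1
    replace z2 := right_ne_zero_of_mul ((map_mul _ _ _).symm.trans_ne z2)
    rw [← aeval_TM (K := E), aeval_pc] at z2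
    obtain ⟨D, hD, k⟩ := t2 (pc x) ((pi_norm_le_iff_of_nonneg (by positivity)).2 fun j =>
      ((hx j).ht.norm_le _).trans (pow_le_pow_right₀ one_le_two (by rw [hp, add_mul]; omega))) (by
        rw [← aeval_TM (K := E), aeval_pc]
        exact (cell_inv (by rw [hp, add_mul]; omega)).trans
          (hL E m x m0 hx (fun e => z2 (by rw [e, map_zero])) _))
    exact ⟨_, Finset.mem_image_of_mem _ hD, Finset.mem_filter.2 ⟨hz, k⟩⟩

end

end Pool.Agent.Lib.MP_5591bc_ag.Z
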