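import Pool.Agent.Lib.MP_5591bc_ag.Z.Main
import Pool.Agent.Lib.MP_5591bc_ag.Z.Fund

/-! The hypersurface through all exceptional points. -/

namespace Pool.Agent.Lib.MP_5591bc_ag.Z

open Matrix Filter Topology G R W M N E Metric MvPolynomial

noncomputable section

variable {σ K : Type} [Fintype σ] [DecidableEq σ] [Field K] [Algebra K ℂ] {n : ℕ}
  {T : MvPolynomial σ K} {B : σ → Matrix (Fin n) (Fin n) (MvPolynomial σ K)}

omit [DecidableEq σ] in
theorem fin_empty [IsEmpty σ] (U : Set (σ → ℂ)) (P : (σ → ℂ) → Matrix (Fin n) (Fin n) ℂ)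
    (C1 C0 : Matrix (Fin n) (Fin n) ℂ) (δ : ℕ) (x : σ → K) (z : Matrix (Fin n) (Fin n) K) :
    GoodRM U P C1 C0 δ x z := fun F _ h => by
  refine ⟨rename (fun a => .inr (.inr a)) F, fun U' P' k t _ => ?_, ?_⟩
  · have e : P' = P := by
      induction k with
      | base => rfl
      | step _ _ _ _ s _ _ _ _ s1 _ e ih =>
        rw [← ih (Subsingleton.elim s t ▸ s1)]
        exact funext fun w => Subsingleton.elim s w ▸ e.self_of_nhds.symm
    rw [aeval_rename, e, ← h, Subsingleton.elim t fun l => algebraMap K ℂ (x l)]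
    rfl
  · rw [aeval_rename]
    exact aeval_X_left_apply F

theorem hypZ [NumberField K] (T0 : T ≠ 0) (h : GalM T B) : ∃ C : ℕ, ∀ (δ r : ℕ) (U : Set (σ → ℂ))
    (P : (σ → ℂ) → Matrix (Fin n) (Fin n) ℂ) (C1 C0 : Matrix (Fin n) (Fin n) ℂ), IsOpen U →
      IsPreconnected U → FundM T B U P → (ConnRM U P fun t => P t * C1) → FinMon K U P C1 C0 r →
      ∀ (d : ℕ) (H : ℝ), 2 ≤ H → ∃ Q : MvPolynomial σ ℂ, Q ≠ 0 ∧
        (Q.totalDegree : ℝ) ≤ r * (C * (δ + 1) * d * Real.log H) ^ (C * (δ + 1) ^ n ^ 2) ∧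
        ∀ U' P', ContM U P U' P' → ∀ t ∈ U',
          (∀ j, ∃ q : Polynomial ℤ, q ≠ 0 ∧ (∀ i, |(q.coeff i : ℝ)| ≤ H) ∧
            Polynomial.aeval (t j) q = 0) →
          ∀ (E : IntermediateField K ℂ) (x : σ → E) (z : Matrix (Fin n) (Fin n) E),
            (∀ j, (x j : ℂ) = t j) → (∀ i j, (z i j : ℂ) = (P' t * C1) i j) →
            FiniteDimensional ℚ E → Module.finrank ℚ E ≤ d → ¬ GoodRM U' P' C1 C0 δ x z →
            eval t Q = 0 := by
  have l0 := Real.log_two_gt_d9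
  rcases isEmpty_or_nonempty σ with _ | _
  · refine ⟨0, fun δ r U P C1 C0 _ _ _ _ _ d H _ => ⟨1, one_ne_zero, by simp,
      fun U' P' _ _ _ _ E x z _ _ _ _ hb => absurd (fin_empty _ _ _ _ _ _ _) hb⟩⟩
  obtain ⟨C, Cp, hg⟩ := hyp_natZ T0 h
  refine ⟨4 * C * (T.totalDegree + 1), fun δ r U P C1 C0 ho hU hP hC hM d H H2 => ?_⟩
  have l2 : Real.log 2 ≤ Real.log H := Real.log_le_log two_pos H2
  have l3 := l0.le.trans l2
  rcases Nat.eq_zero_or_pos r with rfl | r0
  · refine ⟨1, one_ne_zero, by simp, fun U' P' k t ht => ?_⟩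
    obtain ⟨i, j, e, -⟩ := hM t (fun _ => U') (fun _ => P') fun _ => ⟨k, ht⟩
    exact absurd (Subsingleton.elim (α := Fin 1) i j) e
  rcases Nat.eq_zero_or_pos d with rfl | d0
  · refine ⟨1, one_ne_zero, ?_, fun _ _ _ _ _ _ E _ _ _ _ _ hd =>
      absurd Module.finrank_pos (not_lt.2 hd)⟩
    rw [totalDegree_one]
    exact Nat.cast_zero.trans_le (mul_nonneg r.cast_nonneg (pow_nonneg (by simp) _))
  obtain ⟨L, L0, L1, L2⟩ : ∃ L : ℕ, 0 < L ∧ H ≤ 2 ^ L ∧ (L : ℝ) ≤ 4 * Real.log H := by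
    refine ⟨⌈2 * Real.log H⌉₊, Nat.ceil_pos.2 (by linarith), ?_, ?_⟩
    · rw [← Real.log_le_log_iff (by linarith) (by positivity), Real.log_pow]
      nlinarith [Nat.le_ceil (2 * Real.log H)]
    · linarith [Nat.ceil_lt_add_one (show 0 ≤ 2 * Real.log H by linarith)]
  obtain ⟨Q, Q0, Q1, Q2⟩ := hyp_of_finset (A := {t | _ ∧ _})
    fun S e => hg δ r U P C1 C0 ho hU hP hC hM r0 d L d0 L0 S fun t ht => e ht
  refine ⟨TM ℂ T * Q, mul_ne_zero ((map_ne_zero_iff _
    (map_injective _ (algebraMap K ℂ).injective)).2 T0) Q0, ?_,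
    fun U' P' k t ht b E x z hx hz f hd hb => ?_⟩
  · obtain ⟨w, hw⟩ : ∃ w, w = C * (δ + 1) * (d * L) := ⟨_, rfl⟩
    have w0 : 0 < w := hw ▸ by positivity
    have k1 : (TM ℂ T * Q).totalDegree ≤ r * ((T.totalDegree + 1) * w) ^
        (4 * C * (T.totalDegree + 1) * (δ + 1) ^ n ^ 2) := by
      rw [← hw] at Q1
      refine (totalDegree_mul _ _).trans ((add_le_add
        (Finset.sup_mono (support_map_subset _ _)) Q1).trans ?_)
      calc _ ≤ r * ((T.totalDegree + 1) * w ^ (C * (δ + 1) ^ n ^ 2)) := by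
            rw [add_mul, mul_add, one_mul, mul_left_comm]
            exact Nat.add_le_add_right (Nat.le_mul_of_pos_right _ (by positivity)) _
        _ ≤ r * ((T.totalDegree + 1) * w) ^ (C * (δ + 1) ^ n ^ 2) := by
            rw [mul_pow]
            gcongr
            exact Nat.le_self_pow (by positivity) _
        _ ≤ _ := Nat.mul_le_mul_left _ (Nat.pow_le_pow_right (by positivity) (by gcongr; nlinarith))
    refine (Nat.cast_le.2 k1).trans ?_
    rw [hw]
    push_cast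
    refine mul_le_mul_of_nonneg_left (pow_le_pow_left₀ (by positivity) ?_ _) r.cast_nonneg
    calc _ ≤ ((T.totalDegree + 1) * (C * (δ + 1) * (d * (4 * Real.log H))) : ℝ) := by gcongr
      _ = _ := by ring
  by_cases e : aeval t T = 0
  · rw [map_mul, eval_map, ← aeval_def, e, zero_mul]
  obtain ⟨V, v1, v2, v3, -, v5⟩ := cont_fund T0 ho hU hP k ht e
  obtain ⟨o, c, a⟩ := cont_dom ho hU (fun i j t ht => ((hP t ht).2 i j).1) k
  obtain rfl : pc x = t := funext hx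
  rw [map_mul, Q2 _ ⟨fun j => ?_, V, P', .step _ _ _ _ _ k v1 v2
    (fun i j t ht => ((v5 t ht).2 i j).1) ht v3 (.of_forall fun _ => rfl), v5, v3, E, x, z, rfl, f,
    hd, Matrix.ext hz, fun g => hb (good_mulR (γ := 1) v1 o c (fun t ht i j => a i j t ht) v3 ht
      (by simp) (.of_forall fun _ => ⟨rfl, by
        rw [Matrix.map_one _ (map_zero _) (map_one _), Matrix.mul_one]⟩) g)⟩, mul_zero]
  obtain ⟨q, q0, q1, q2⟩ := b j
  exact ⟨q, q0, fun i => (q1 i).trans L1, q2⟩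

end

end Pool.Agent.Lib.MP_5591bc_ag.Z
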