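import Pool.Agent.Lib.MP_5591bc_ag.M.Defs

/-! Finitely many branches, and monodromy defined over the base field on each branch. -/

namespace Pool.Agent.Lib.MP_5591bc_ag.Z

open Filter Topology M

/-- Among any `m + 1` analytic continuations of `P` to a point, two give the same `P * C1` and
matrices `P * C0` that differ by a constant invertible right factor with entries in `K`. -/
def FinMon (K : Type*) {σ ν : Type*} [Field K] [Algebra K ℂ] [Fintype σ] [Fintype ν]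
    [DecidableEq ν] (U : Set (σ → ℂ)) (P : (σ → ℂ) → Matrix ν ν ℂ) (C1 C0 : Matrix ν ν ℂ) (m : ℕ) :
    Prop :=
  ∀ (t : σ → ℂ) (V : Fin (m + 1) → Set (σ → ℂ)) (Q : Fin (m + 1) → (σ → ℂ) → Matrix ν ν ℂ),
    (∀ i, ContM U P (V i) (Q i) ∧ t ∈ V i) → ∃ i j, i ≠ j ∧ ∃ γ : Matrix ν ν K, γ.det ≠ 0 ∧
      ∀ᶠ z in 𝓝 t, Q j z * C1 = Q i z * C1 ∧ Q j z * C0 = Q i z * C0 * γ.map (algebraMap K ℂ)

end Pool.Agent.Lib.MP_5591bc_ag.Z
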