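import Pool.Agent.Lib.MP_5591bc_ag.E.Gap
import Pool.Agent.Lib.MP_5591bc_ag.N.Gap

/-! The bad points joined to a centre by discs lie on a hypersurface, relative form. -/

namespace Pool.Agent.Lib.MP_5591bc_ag.Z

open Matrix Filter Topology MvPowerSeries G R W M N E Metric

noncomputable section

variable {σ K0 : Type} [Fintype σ] [DecidableEq σ] [Field K0] [NumberField K0] [Algebra K0 ℂ]
  {ν : Type} [Fintype ν] [DecidableEq ν] {T : MvPolynomial σ K0}
  {B : σ → Matrix ν ν (MvPolynomial σ K0)}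

omit [NumberField K0] in
theorem gap_link {h ρ : ℝ} {s x : σ → ℂ} {P Q : (σ → ℂ) → Matrix ν ν ℂ} {U : Set (σ → ℂ)}
    (tb : Tb T B h ρ s x P U Q) : Link s P x Q := fun q =>
  (eventually_congr (tb.eq.mono fun t ht => by simp only [valM, ht])).trans
    (link_of tb.op tb.co (fun t ht i j => ((tb.fd t ht).2 i j).1) tb.ms tb.mx q)

theorem gapLZ (h : GalM T B) : ∃ c e : ℕ, ∀ (δ N : ℕ), (δ + 1) ^ Fintype.card (ν × ν) ≤ N →
    ∀ (K L : Type) [Field K] [NumberField K] [Field L] [NumberField L] [Algebra K L] [Algebra K ℂ]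
      [Algebra L ℂ] [IsScalarTower K L ℂ] [Algebra K0 K] [Algebra K0 L] [IsScalarTower K0 K ℂ]
      [IsScalarTower K0 L ℂ] (n Λ : ℕ) (s : σ → K) (V : Set (σ → ℂ))
      (P : (σ → ℂ) → Matrix ν ν ℂ) (C1 C0 : Matrix ν ν ℂ), 0 < n → c * δ * n ≤ Λ →
      (Fintype.card σ + 1) * (2 * n + 1) ≤ Λ → (∀ l, Hd (s l) (2 ^ n)) →
      IsOpen V → IsPreconnected V → FundM T B V P → pc s ∈ V → MvPolynomial.aeval (pc s) T ≠ 0 →
      ConnRM V P (fun t => P t * C1) →
      ∀ S : Finset (σ → L), (∀ x ∈ S, ∃ U Q, Tb T B (2 ^ Λ) (2 ^ Λ)⁻¹ (pc s) (pc x) P U Q ∧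
        ∃ (E : Type) (_ : Field E) (_ : NumberField E) (_ : Algebra E ℂ) (_ : Algebra K0 E)
          (_ : IsScalarTower K0 E ℂ) (φ : E →ₐ[K0] L) (y : σ → E) (F : Mo δ ν → E)
          (z : Matrix ν ν E) (E' : IntermediateField ℚ L), (fun l => φ (y l)) = x ∧
          z.map (algebraMap E ℂ) = Q (pc y) * C1 ∧
          (∀ z, algebraMap L ℂ (φ z) = algebraMap E ℂ z) ∧ (∀ l, Hd (y l) (2 ^ n)) ∧
          Module.finrank ℚ E' ≤ Λ ∧ (∀ z, algebraMap K L z ∈ E') ∧ (∀ z, φ z ∈ E') ∧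
          (fun μ => algebraMap E ℂ (F μ)) ⬝ᵥ mono δ (Q (pc y) * C0) = 0 ∧
          ¬ LGN Q C1 C0 δ y z F) →
        Hyp (S : Set (σ → L)) ((Λ + N + 2) ^ (e * (N + 1))) := by
  obtain ⟨e, hcore⟩ := coreQE σ
  obtain ⟨c, hc⟩ := gk_adjM h
  refine ⟨c, e, fun δ N hN => ?_⟩
  obtain ⟨A, _, q, ρ, hA, hρ⟩ := sy_quot (ν × ν) δ
  replace hc := hc δ
  intro K L _ _ _ _ _ _ _ _ _ _ _ _ n Λ s V P C1 C0 n0 c1 c2 hs oV cV hV mV Ts hI S hS
  choose! U Q tb hS using hS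
  have es : (fun l => algebraMap L ℂ (algebraMap K L (s l))) = pc s :=
    funext fun l => (IsScalarTower.algebraMap_apply K L ℂ _).symm
  have ec : (algebraMap L ℂ).comp (algebraMap K L) = algebraMap K ℂ :=
    (IsScalarTower.algebraMap_eq K L ℂ).symm
  obtain ⟨R, _, _, _, π, ev, hπ, hev, hlift⟩ := fib_ringN oV cV hV hI mV Ts
  have eQ : ∀ x ∈ S, Q x (pc s) = P (pc s) := fun x hx => (tb x hx).eq.eq_of_nhds
  have eF : ∀ x ∈ S, (fun t => Q x t * (Q x (pc s))⁻¹) =ᶠ[𝓝 (pc s)] fun t => P t * (P (pc s))⁻¹ :=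
    fun x hx => (tb x hx).eq.mono fun t ht => by simp only [ht, eQ x hx]
  have ns : MvPolynomial.eval s (TM K T) ≠ 0 := fun e =>
    Ts (by rw [← aeval_TM (K := K), aeval_pc, e, map_zero])
  have nx : ∀ x ∈ S, MvPolynomial.aeval (pc x) T ≠ 0 := fun x hx => (tb x hx).ne
  have nL : ∀ x ∈ S, MvPolynomial.eval x (TM L T) ≠ 0 := fun x hx e =>
    nx x hx (by rw [← aeval_TM (K := L), aeval_pc, e, map_zero])
  have key : ∀ x ∈ S, ∃ F : Mo δ ν → L, Sy F ∧
      DatE (algebraMap L ℂ) Λ s (TM L T) (fun l => Bd δ (BM L B l))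
        (Adj δ (GbM (TM K T) (BM K B) s)) x (LserM (TM L T) (BM L B) δ x F)
        (fun β => ev (π (pX δ (lamM (Q x) δ x F (pc s)) β))) ∧
      ∑ j, mono δ (P (pc s) * C0) j • π (pX δ (lamM (Q x) δ x F (pc s)) j) ≠ 0 ∧
      ∑ j, mono δ (P (pc s) * C0) j * ev (π (pX δ (lamM (Q x) δ x F (pc s)) j)) = 0 := by
    intro x hx
    have n2 := nL x hx
    have eq := eQ x hx
    have t := tb x hx
    have hS := hS x hx
    generalize Q x = Q, U x = U at eq t hS ⊢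
    have ho := t.op
    have hP := t.fd
    have ms := t.ms
    have m1 := t.mx
    obtain ⟨E, _, _, _, _, _, φ, y, F0, z, E', rfl, hz, hφ, hy, e1, e2, e3, hF, hbad⟩ := hS
    obtain ⟨F, sy, hbad, eF⟩ := exists_syN hbad
    rw [← eF] at hF
    have ey : pc (fun l => φ (y l)) = pc y := funext fun l => hφ _
    have m2 : pc y ∈ U := ey ▸ m1
    have el : lamM Q δ (fun l => φ (y l)) (fun μ => φ (F μ)) = lamM Q δ y F := by
      funext t
      simp only [lamM, hφ, ey]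
    have ny : MvPolynomial.eval y (TM E T) ≠ 0 := fun e => n2 (by rw [eval_TM, e, map_zero])
    have hsub := gap_sub (fun l => (hy l).ht.map (φ : E →+* L))
      (fun l => (hs l).ht.map (algebraMap K L)) c2
    obtain ⟨g, S0, hr, hg⟩ := t.cur (by positivity) (fun μ => algebraMap L ℂ (φ (F μ)))
      (Q (pc fun l => φ (y l)))⁻¹
    refine ⟨fun μ => φ (F μ), sy.comp φ, ⟨n2, LserM_ode ho (hP.tm L) m1 n2 δ _,
      ⟨E', e1, e2, fun l => e3 _, fun α j => ?_⟩, ?_, hsub.1, hsub.2,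
      fun α t => lamM Q δ (fun l => φ (y l)) (fun μ => φ (F μ)) t α, g, S0, es ▸ hr,
      fun α => ⟨?_, (tayM_congr (hg α)).trans (tayM_self ho (hP.tm L) m1 n2 _ _)⟩⟩, ?_, ?_⟩
    · rw [LserM_map, coeff_map]
      exact e3 _
    · have := ((hc E n y n0 hy ny Λ c1).2 F).map (φ : E →+* L)
      simpa only [← LserM_map] using this
    · rw [es, ec]
      simp only [hev]
      rw [← tayM_base ho (hP.tm K) ms ns]
      simp only [← lamM_base _ _ (hP _ ms).1]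
    · intro e
      refine hbad (descN oV (hV.tm E) mV (by rwa [aeval_TM]) ho (hP.tm E) m2 ny
        (ey ▸ gap_link t) hz (hlift δ _ _ ?_))
      rw [← e, el, dotProduct, map_sum, lamM, eq]
      refine Finset.sum_congr rfl fun j _ => ?_
      rw [map_mul, mul_comm, MvPolynomial.algHom_C, Algebra.smul_def]
    · simp only [hev, el]
      rw [← lam_dotN (hP _ m2).1 hF (P (pc s)), dotProduct, lamM, eq]
      exact Finset.sum_congr rfl fun j _ => mul_comm _ _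
  choose! F hF using key
  refine (hcore (Mo δ ν) A q ρ K L R (algebraMap L ℂ) Λ s (TM L T) _
    (Adj δ (GbM (TM K T) (BM K B) s)) S (fun x => LserM (TM L T) (BM L B) δ x (F x)) ev
    (fun x β => π (pX δ (lamM (Q x) δ x (F x) (pc s)) β)) (mono δ (P (pc s) * C0)) (fun e => Ts ?_)
    (hc K n s n0 hs ns Λ c1).1 (fun x hx => (hF x hx).2.1) (fun x hx => (hF x hx).2.2.1)
    (fun x hx => (hF x hx).2.2.2) (fun x hx a φ e => ?_) fun x hx i => ?_).mono subset_rfl ?_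
  · rw [← es, ← aeval_TM (K := L), aeval_pc, e, map_zero]
  · rw [← hπ _ (gap_fib (eF x hx) (specM (tb x hx).op (tb x hx).co ((tb x hx).fd.tm L)
      (tb x hx).ms (tb x hx).mx (nL x hx) (F x) e)), map_sum]
    refine Finset.sum_congr rfl fun α _ => ?_
    rw [map_mul, MvPolynomial.algHom_C, Algebra.smul_def, tens, map_prod, ← aeval_pc]
    exact congrArg (fun z => algebraMap ℂ R (MvPolynomial.aeval z (φ α)) * _) es
  · obtain ⟨τ, hτ⟩ := hρ i
    rw [hτ]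
    exact ⟨sy_lser (hF x hx).1 _ _ _ τ i, congrArg π ((sy_lam (hF x hx).1 (Q x) x _).pX τ i)⟩
  · have := hA.trans hN
    exact (Nat.pow_le_pow_left (by omega) _).trans (Nat.pow_le_pow_right (by omega) (by gcongr))

theorem gapZ (h : GalM T B) : ∃ c e : ℕ, ∀ (δ N : ℕ), (δ + 1) ^ Fintype.card (ν × ν) ≤ N →
    ∀ (n d Λ : ℕ) (s : σ → ℂ) (V : Set (σ → ℂ)) (P : (σ → ℂ) → Matrix ν ν ℂ)
      (C1 C0 : Matrix ν ν ℂ), 0 < n → c * δ * n ≤ Λ → (Fintype.card σ + 1) * (2 * n + 1) ≤ Λ →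
      d * d ≤ Λ → IsOpen V → IsPreconnected V → FundM T B V P → s ∈ V →
      MvPolynomial.aeval s T ≠ 0 → ConnRM V P (fun t => P t * C1) →
      (∃ (E : IntermediateField K0 ℂ) (_ : NumberField E) (y : σ → E), pc y = s ∧
        Module.finrank ℚ E ≤ d ∧ ∀ l, Hd (y l) (2 ^ n)) →
      ∀ S : Finset (σ → ℂ), (∀ x ∈ S, ∃ U Q, Tb T B (2 ^ Λ) (2 ^ Λ)⁻¹ s x P U Q ∧
        BadN K0 Q C1 C0 d δ (2 ^ n) x) → Hyp (S : Set (σ → ℂ)) ((Λ + N + 2) ^ (e * (N + 1))) := by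
  classical
  obtain ⟨c, e, hg⟩ := gapLZ h
  refine ⟨c, e, fun δ N hN n d Λ s V P C1 C0 n0 c1 c2 c3 oV cV hV mV Ts hI hs S hS => ?_⟩
  obtain ⟨E0, hE0, y0, rfl, hd0, hH0⟩ := hs
  choose U Q tb E hE y F Z hy hZ hd hH hF hbad using fun x : S => hS x x.2
  obtain ⟨L, hL, hK, hEL, K1, hK1⟩ := @fld_setup _ (Finset.univ : Finset S)
    (E0.restrictScalars ℚ) (fun x => (E x).restrictScalars ℚ) d d
    hE0.to_finiteDimensional hd0 fun x _ => ⟨(hE x).to_finiteDimensional, hd x⟩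
  have : NumberField L := {}
  let i : ∀ x, E x →+* L := fun x =>
    (IntermediateField.inclusion (hEL x (Finset.mem_univ _))).toRingHom
  let i0 : E0 →+* L := (IntermediateField.inclusion hK).toRingHom
  let _ : Algebra E0 L := i0.toAlgebra
  let _ : Algebra K0 L := (i0.comp (algebraMap K0 _)).toAlgebra
  have : IsScalarTower E0 L ℂ := IsScalarTower.of_algebraMap_eq fun _ => rfl
  have : IsScalarTower K0 L ℂ := IsScalarTower.of_algebraMap_eq fun _ => rfl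
  let z : S → σ → L := fun x l => i x (y x l)
  have hz : ∀ x, pc (z x) = x := hy
  refine ((hg δ N hN E0 L n Λ y0 V P C1 C0 n0 c1 c2 hH0 oV cV hV mV Ts hI (Finset.univ.image z)
    fun w hw => ?_).map
      (algebraMap L ℂ).injective).mono (fun x hx => ⟨z ⟨x, hx⟩, by simp, hz _⟩) le_rfl
  obtain ⟨x, -, rfl⟩ := Finset.mem_image.1 hw
  rw [hz]
  have k := hK1 x (Finset.mem_univ _)
  exact ⟨U x, Q x, tb x, E x, _, hE x, _, _, inferInstance, ⟨i x, fun _ => rfl⟩, y x,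
    F x, Z x, K1 x, rfl, hZ x, fun _ => rfl, hH x, k.1.trans c3, fun a => k.2 _ (Or.inl a.2),
    fun a => k.2 _ (Or.inr a.2), hF x, hbad x⟩

end

end Pool.Agent.Lib.MP_5591bc_ag.Z
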